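import Pool.Agent.W196.TreePar

/-! The two trees on 66 vertices used for the counterexample on energies (MP_d26300_co). -/

set_option autoImplicit false

namespace Pool.Agent.W196.Energy

open Matrix Pool.Agent.W196

/-- parent function of the nonsingular tree: centre `0`, a leaf `1`, and 32 paths `2k - (2k+1)`. -/
def pT (j : ℕ) : ℕ := if j % 2 = 1 then j - 1 else 0

/-- parent function of the singular tree: the path `0, 1, ..., 64` and a second leaf `65` at `1`. -/
def pS (j : ℕ) : ℕ := if j = 65 then 1 else j - 1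

lemma hpT : ∀ j < 66, 0 < j → pT j < j := by
  intro j _ h; unfold pT; split_ifs <;> omega

lemma hpS : ∀ j < 66, 0 < j → pS j < j := by
  intro j _ h; unfold pS; split_ifs <;> omega

abbrev T : SimpleGraph (Fin 66) := parG 66 pT hpT
abbrev S : SimpleGraph (Fin 66) := parG 66 pS hpS

lemma treeT : T.IsTree := parG_isTree 66 (by norm_num) pT hpT
lemma treeS : S.IsTree := parG_isTree 66 (by norm_num) pS hpS

lemma nbr_odd (i : Fin 66) (hi : (i : ℕ) % 2 = 1) :
    T.neighborFinset i = {⟨i - 1, by omega⟩} := by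
  ext j
  rw [SimpleGraph.mem_neighborFinset, parG_adj_iff, Finset.mem_singleton, Fin.ext_iff]
  have hj := j.2
  simp only [pT]
  split_ifs <;> omega

lemma nbr_even (i : Fin 66) (hi : (i : ℕ) % 2 = 0) (h0 : (i : ℕ) ≠ 0) :
    T.neighborFinset i = {⟨0, by omega⟩, ⟨i + 1, by omega⟩} := by
  ext j
  rw [SimpleGraph.mem_neighborFinset, parG_adj_iff, Finset.mem_insert, Finset.mem_singleton,
    Fin.ext_iff, Fin.ext_iff]
  have hj := j.2
  simp only [pT]
  split_ifs <;> omega

lemma nbr_zero (i j : Fin 66) (hi : (i : ℕ) = 0) (h : j ∈ T.neighborFinset i) :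
    (j : ℕ) = 1 ∨ ((j : ℕ) % 2 = 0 ∧ (j : ℕ) ≠ 0) := by
  rw [SimpleGraph.mem_neighborFinset, parG_adj_iff] at h
  have hj := j.2
  simp only [pT] at h
  split_ifs at h <;> omega

lemma nbr_zero' (i : Fin 66) (hi : (i : ℕ) = 0) :
    T.neighborFinset i = Finset.univ.filter (fun j : Fin 66 => (j : ℕ) = 1 ∨
      ((j : ℕ) % 2 = 0 ∧ (j : ℕ) ≠ 0)) := by
  ext j
  rw [SimpleGraph.mem_neighborFinset, parG_adj_iff, Finset.mem_filter]
  have hj := j.2
  simp only [pT, Finset.mem_univ, true_and]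
  split_ifs <;> omega

lemma card_nbr_zero : ((T.neighborFinset 0).filter (fun j : Fin 66 => (j : ℕ) ≠ 1)).card = 32 := by
  rw [nbr_zero' 0 rfl]
  decide +kernel

lemma one_mem : (1 : Fin 66) ∈ T.neighborFinset 0 := by
  rw [SimpleGraph.mem_neighborFinset, parG_adj_iff]
  left
  decide

/-- degrees in `T` -/
lemma degT (i : Fin 66) : T.degree i = if (i : ℕ) = 0 then 33 else if (i : ℕ) % 2 = 1 then 1 else 2 := by
  rw [← SimpleGraph.card_neighborFinset_eq_degree]
  split_ifs with h0 h1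
  · rw [nbr_zero' i h0]; decide +kernel
  · rw [nbr_odd i h1, Finset.card_singleton]
  · rw [nbr_even i (by omega) h0, Finset.card_insert_of_notMem, Finset.card_singleton]
    rw [Finset.mem_singleton, Fin.ext_iff]
    exact (Nat.succ_ne_zero _).symm

/-- neighbours in `S` -/
lemma nbrS (i : Fin 66) : S.neighborFinset i = Finset.univ.filter (fun j : Fin 66 =>
    ((i : ℕ) = 65 ∧ (j : ℕ) = 1) ∨ ((i : ℕ) = 1 ∧ (j : ℕ) = 65) ∨
    ((i : ℕ) < 65 ∧ (j : ℕ) < 65 ∧ ((j : ℕ) = i + 1 ∨ (j : ℕ) + 1 = i))) := by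
  ext j
  rw [SimpleGraph.mem_neighborFinset, parG_adj_iff, Finset.mem_filter]
  have hj := j.2
  have hi := i.2
  simp only [pS, Finset.mem_univ, true_and]
  split_ifs <;> omega

lemma degS (i : Fin 66) : S.degree i =
    if (i : ℕ) = 1 then 3 else if (i : ℕ) = 0 ∨ (i : ℕ) = 64 ∨ (i : ℕ) = 65 then 1 else 2 := by
  rw [← SimpleGraph.card_neighborFinset_eq_degree, nbrS]
  revert i
  decide +kernel

lemma numT1 : ∑ i, T.degree i = 130 := by
  simp_rw [degT]; decide +kernel
lemma numS1 : ∑ i, S.degree i = 130 := by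
  simp_rw [degS]; decide +kernel
lemma numT2 : ∑ i, T.degree i ^ 2 = 1250 := by
  simp_rw [degT]; decide +kernel
lemma numS2 : ∑ i, S.degree i ^ 2 = 260 := by
  simp_rw [degS]; decide +kernel

lemma trT2 : ((T.adjMatrix ℝ) ^ 2).trace = 130 := by rw [trace_two, numT1]; norm_num
lemma trS2 : ((S.adjMatrix ℝ) ^ 2).trace = 130 := by rw [trace_two, numS1]; norm_num
lemma trT4 : ((T.adjMatrix ℝ) ^ 4).trace = 2370 := by
  rw [trace_four _ treeT.isAcyclic, numT1, numT2]; norm_num
lemma trS4 : ((S.adjMatrix ℝ) ^ 4).trace = 390 := by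
  rw [trace_four _ treeS.isAcyclic, numS1, numS2]; norm_num

/-- the inverse of the adjacency matrix of `T`. -/
def BT : Matrix (Fin 66) (Fin 66) ℤ := fun i j =>
  if (i : ℕ) = 0 then (if (j : ℕ) = 1 then 1 else 0)
  else if (i : ℕ) = 1 then
    (if (j : ℕ) = 0 then 1 else if (j : ℕ) = 1 then 0 else if (j : ℕ) % 2 = 1 then -1 else 0)
  else if (i : ℕ) % 2 = 0 then (if (j : ℕ) = i + 1 then 1 else 0)
  else (if (j : ℕ) + 1 = i then 1 else if (j : ℕ) = 1 then -1 else 0)

lemma invT (i j : Fin 66) : ∑ k ∈ T.neighborFinset i, BT k j = if i = j then 1 else 0 := by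
  by_cases h0 : (i : ℕ) = 0
  · have hi : i = 0 := Fin.ext h0
    subst hi
    rw [nbr_zero' 0 rfl]
    revert j
    decide +kernel
  by_cases h1 : (i : ℕ) % 2 = 1
  · rw [nbr_odd i h1, Finset.sum_singleton]
    simp only [BT, Fin.ext_iff]
    split_ifs <;> first | omega | contradiction | simp_all
  · rw [nbr_even i (by omega) h0, Finset.sum_insert, Finset.sum_singleton]
    · simp only [BT, Fin.ext_iff]
      split_ifs <;> first | omega | contradiction | simp_all
    · rw [Finset.mem_singleton, Fin.ext_iff]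
      exact (Nat.succ_ne_zero _).symm

lemma detMT : |(T.adjMatrix ℤ).det| = 1 := by
  have h : T.adjMatrix ℤ * BT = 1 := by
    ext i j
    rw [SimpleGraph.adjMatrix_mul_apply, invT, Matrix.one_apply]
  have h2 : (T.adjMatrix ℤ).det * BT.det = 1 := by rw [← Matrix.det_mul, h, Matrix.det_one]
  have h3 : IsUnit (T.adjMatrix ℤ).det := IsUnit.of_mul_eq_one _ h2
  exact Int.isUnit_iff_abs_eq.mp h3

lemma detT : |(T.adjMatrix ℝ).det| = 1 := by
  have h : T.adjMatrix ℝ = (T.adjMatrix ℤ).map (Int.cast : ℤ → ℝ) := by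
    ext i j
    rw [Matrix.map_apply, SimpleGraph.adjMatrix_apply, SimpleGraph.adjMatrix_apply]
    split_ifs <;> simp
  have h2 : (T.adjMatrix ℝ).det = (((T.adjMatrix ℤ).det : ℤ) : ℝ) := by
    rw [h]
    exact (Int.cast_det _).symm
  rw [h2, ← Int.cast_abs, detMT, Int.cast_one]

lemma detS : (S.adjMatrix ℝ).det = 0 := by
  apply Matrix.det_zero_of_row_eq (i := 0) (j := 65) (by decide)
  funext j
  rw [SimpleGraph.adjMatrix_apply, SimpleGraph.adjMatrix_apply]
  have : S.Adj 0 j ↔ S.Adj 65 j := by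
    rw [parG_adj_iff, parG_adj_iff]
    have hj := j.2
    have e0 : ((0 : Fin 66) : ℕ) = 0 := rfl
    have e65 : ((65 : Fin 66) : ℕ) = 65 := rfl
    rw [e0, e65]
    simp only [pS]
    split_ifs <;> first | omega | contradiction | (simp_all; done) | (simp_all; omega)
  simp only [this]

end Pool.Agent.W196.Energy
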