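import Mathlib
import Pool.Agent.W196.EnergyNum

set_option autoImplicit false

namespace Pool.Agent.W196.Energy

open Matrix Pool.Agent.W196

lemma hermT : (T.adjMatrix ℝ).IsHermitian := by
  rw [Matrix.IsHermitian, Matrix.conjTranspose_eq_transpose_of_trivial]
  exact T.isSymm_adjMatrix

lemma hermS : (S.adjMatrix ℝ).IsHermitian := by
  rw [Matrix.IsHermitian, Matrix.conjTranspose_eq_transpose_of_trivial]
  exact S.isSymm_adjMatrix

/-- The eigenvalues of `T`. -/
lemma eigT (l : ℝ) (v : Fin 66 → ℝ) (hv : v ≠ 0) (h : T.adjMatrix ℝ *ᵥ v = l • v) :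
    l ^ 2 = 1 ∨ l ^ 4 - 34 * l ^ 2 + 1 = 0 := by
  have h' : ∀ i, ∑ u ∈ T.neighborFinset i, v u = l * v i := fun i => by
    have := congrFun h i
    rwa [SimpleGraph.adjMatrix_mulVec_apply] at this
  have hodd : ∀ i : Fin 66, (hi : (i : ℕ) % 2 = 1) → v ⟨i - 1, by omega⟩ = l * v i := fun i hi => by
    have := h' i
    rwa [nbr_odd i hi, Finset.sum_singleton] at this
  have heven : ∀ i : Fin 66, (hi : (i : ℕ) % 2 = 0) → (h0 : (i : ℕ) ≠ 0) →
      v 0 + v ⟨i + 1, by omega⟩ = l * v i := fun i hi h0 => by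
    have := h' i
    rw [nbr_even i hi h0, Finset.sum_insert (by rw [Finset.mem_singleton, Fin.ext_iff]; exact (Nat.succ_ne_zero _).symm), Finset.sum_singleton] at this
    exact this
  have h1 : v 0 = l * v 1 := hodd 1 (by decide)
  have hz := h' 0
  rw [← Finset.sum_erase_add _ _ one_mem] at hz
  have hset : (T.neighborFinset 0).erase 1 = (T.neighborFinset 0).filter (fun j : Fin 66 => (j : ℕ) ≠ 1) := by
    ext j
    simp only [Finset.mem_erase, Finset.mem_filter, ne_eq, Fin.ext_iff]
    constructor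
    · rintro ⟨a, b⟩; exact ⟨b, a⟩
    · rintro ⟨a, b⟩; exact ⟨b, a⟩
  by_cases h0 : v 0 = 0
  · left
    by_contra hl
    apply hv
    have he : ∀ i : Fin 66, (hi : (i : ℕ) % 2 = 0) → (h0 : (i : ℕ) ≠ 0) → v i = 0 := by
      intro i hi hi0
      have e1 := heven i hi hi0
      have e2 := hodd ⟨i + 1, by omega⟩ (by simp; omega)
      simp only [Nat.add_sub_cancel, Fin.eta] at e2
      rw [h0, zero_add] at e1
      rw [e1] at e2
      have : (l ^ 2 - 1) * v i = 0 := by linear_combination -e2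
      rcases mul_eq_zero.mp this with h | h
      · exact absurd (by linarith) hl
      · exact h
    have hsum : ∑ x ∈ (T.neighborFinset 0).erase 1, v x = 0 := by
      apply Finset.sum_eq_zero
      intro x hx
      rw [hset, Finset.mem_filter] at hx
      rcases nbr_zero 0 x rfl hx.1 with h | h
      · exact absurd h hx.2
      · exact he x h.1 h.2
    rw [hsum, h0] at hz
    have hv1 : v 1 = 0 := by linarith
    funext i
    change v i = 0
    by_cases hi0 : (i : ℕ) = 0
    · have : i = 0 := Fin.ext hi0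
      rw [this, h0]
    by_cases hi1 : (i : ℕ) = 1
    · have : i = 1 := Fin.ext hi1
      rw [this, hv1]
    by_cases hi : (i : ℕ) % 2 = 0
    · exact he i hi hi0
    · have e1 := heven ⟨i - 1, by omega⟩ (by simp; omega) (by simp; omega)
      have e3 : (⟨(i : ℕ) - 1 + 1, by omega⟩ : Fin 66) = i := Fin.ext (by simp; omega)
      simp only [e3] at e1
      rw [h0, he ⟨i - 1, by omega⟩ (by simp; omega) (by simp; omega)] at e1
      linarith
  · right
    have hw : ∀ x ∈ (T.neighborFinset 0).erase 1, l * (l ^ 2 - 1) * v x = l ^ 2 * v 0 := by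
      intro x hx
      rw [hset, Finset.mem_filter] at hx
      rcases nbr_zero 0 x rfl hx.1 with h | h
      · exact absurd h hx.2
      have e1 := heven x h.1 h.2
      have e2 := hodd ⟨x + 1, by omega⟩ (by simp; omega)
      simp only [Nat.add_sub_cancel, Fin.eta] at e2
      set y := v ⟨(x : ℕ) + 1, by omega⟩
      rw [e2] at e1 ⊢
      linear_combination (-l ^ 2) * e1
    have hs : l * (l ^ 2 - 1) * ∑ x ∈ (T.neighborFinset 0).erase 1, v x = 32 * (l ^ 2 * v 0) := by
      rw [Finset.mul_sum, Finset.sum_congr rfl hw, Finset.sum_const, hset, card_nbr_zero]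
      simp
    have : (l ^ 4 - 34 * l ^ 2 + 1) * v 0 = 0 := by
      linear_combination (-1) * (l * (l ^ 2 - 1)) * hz + hs - (l ^ 2 - 1) * h1
    rcases mul_eq_zero.mp this with h | h
    · exact h
    · exact absurd h h0

lemma absT (l : ℝ) (h : l ^ 2 = 1 ∨ l ^ 4 - 34 * l ^ 2 + 1 = 0) :
    |l| = (7 + 42 * l ^ 2 - l ^ 4) / 48 := by
  have hs : 0 ≤ |l| := abs_nonneg l
  have h2 : |l| ^ 2 = l ^ 2 := sq_abs l
  set s := |l| with hsdef
  have h4 : l ^ 4 = s ^ 4 := by
    have : l ^ 4 = (l ^ 2) ^ 2 := by ring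
    rw [this, ← h2]; ring
  rw [h4, ← h2] at h
  rw [h4, ← h2]
  rcases h with h | h
  · have : s = 1 := by nlinarith
    rw [this]; norm_num
  · have : (s ^ 2 - 6 * s + 1) * (s ^ 2 + 6 * s + 1) = 0 := by linear_combination h
    rcases mul_eq_zero.mp this with h | h
    · linear_combination (1 / 48) * (s ^ 2 + 6 * s - 7) * h
    · nlinarith

lemma sumT : ∑ i, |hermT.eigenvalues i| = 74 := by
  have e2 : ∀ i, |hermT.eigenvalues i| =
      7 / 48 + 42 / 48 * hermT.eigenvalues i ^ 2 - 1 / 48 * hermT.eigenvalues i ^ 4 := by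
    intro i
    rw [absT (hermT.eigenvalues i)]
    · ring
    · refine eigT _ (⇑(hermT.eigenvectorBasis i)) ?_ (hermT.mulVec_eigenvectorBasis i)
      intro h0
      have := hermT.eigenvectorBasis.orthonormal.ne_zero i
      apply this
      ext j
      exact congrFun h0 j
  simp_rw [e2]
  rw [Finset.sum_sub_distrib, Finset.sum_add_distrib, ← Finset.mul_sum, ← Finset.mul_sum,
    sum_pow_eigenvalues, sum_pow_eigenvalues, trT2, trT4]
  simp
  norm_num

lemma sumS : 74 < ∑ i, |hermS.eigenvalues i| := by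
  have e2 : ∀ i, 13 / 15 * hermS.eigenvalues i ^ 2 - 193 / 2000 * hermS.eigenvalues i ^ 4 ≤
      |hermS.eigenvalues i| := by
    intro i
    set l := hermS.eigenvalues i
    have hs : 0 ≤ |l| := abs_nonneg l
    have h2 : |l| ^ 2 = l ^ 2 := sq_abs l
    set s := |l| with hsdef
    have h4 : l ^ 4 = s ^ 4 := by
      have : l ^ 4 = (l ^ 2) ^ 2 := by ring
      rw [this, ← h2]; ring
    rw [h4, ← h2]
    have : 0 ≤ 1 - 13 / 15 * s + 193 / 2000 * s ^ 3 := by
      nlinarith [mul_nonneg hs (sq_nonneg (s - 173 / 100)), sq_nonneg (s - 173 / 100)]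
    nlinarith
  have e3 := Finset.sum_le_sum (fun i (_ : i ∈ Finset.univ) => e2 i)
  rw [Finset.sum_sub_distrib, ← Finset.mul_sum, ← Finset.mul_sum,
    sum_pow_eigenvalues, sum_pow_eigenvalues, trS2, trS4] at e3
  refine lt_of_lt_of_le ?_ e3
  norm_num

lemma prodT : ∏ i, |hermT.eigenvalues i| = 1 := by
  rw [← Finset.abs_prod]
  have := hermT.det_eq_prod_eigenvalues
  have h2 : (T.adjMatrix ℝ).det = ∏ i, hermT.eigenvalues i := by simpa using this
  rw [← h2, detT]

lemma prodS : ∏ i, |hermS.eigenvalues i| = 0 := by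
  rw [← Finset.abs_prod]
  have := hermS.det_eq_prod_eigenvalues
  have h2 : (S.adjMatrix ℝ).det = ∏ i, hermS.eigenvalues i := by simpa using this
  rw [← h2, detS, abs_zero]

end Pool.Agent.W196.Energy
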