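import Pool.Agent.W259.GP.Defs

set_option autoImplicit false

open MeasureTheory Finset Filter
open scoped Topology

namespace Pool.Agent.W196.GPEnt

open Pool.Agent.W259.GP

lemma rr_pos {c : ℝ} (hc : 0 < c) : 0 < rr c := by
  unfold rr
  have h : 1 < √(1 + 2 * c) := by
    rw [Real.lt_sqrt (by norm_num)]
    linarith
  exact div_pos (by linarith) (by linarith)

lemma rr_lt_one {c : ℝ} (hc : 0 < c) : rr c < 1 := by
  unfold rr
  have h : 1 < √(1 + 2 * c) := by
    rw [Real.lt_sqrt (by norm_num)]
    linarith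
  rw [div_lt_one (by linarith)]
  linarith

/-- geometric weights -/
noncomputable def gw (c : ℝ) (k : ℕ) : ℝ := (1 - rr c) * rr c ^ k

lemma gw_pos {c : ℝ} (hc : 0 < c) (k : ℕ) : 0 < gw c k :=
  mul_pos (by linarith [rr_lt_one hc]) (pow_pos (rr_pos hc) k)

lemma gw_le_one {c : ℝ} (hc : 0 < c) (k : ℕ) : gw c k ≤ 1 := by
  unfold gw
  have h1 := rr_pos hc
  have h2 := rr_lt_one hc
  have h3 : rr c ^ k ≤ 1 := pow_le_one₀ h1.le h2.le
  have h4 : 0 < rr c ^ k := pow_pos h1 k
  nlinarith

lemma hasSum_gw {c : ℝ} (hc : 0 < c) : HasSum (gw c) 1 := by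
  have h1 := rr_pos hc
  have h2 := rr_lt_one hc
  have h := (hasSum_geometric_of_lt_one h1.le h2).mul_left (1 - rr c)
  rwa [mul_inv_cancel₀ (by linarith)] at h

lemma hasSum_gw_log {c : ℝ} (hc : 0 < c) :
    HasSum (fun k => gw c k * Real.log (gw c k)) (-gH c) := by
  have h1 := rr_pos hc
  have h2 := rr_lt_one hc
  have h3 : (1 : ℝ) - rr c ≠ 0 := by linarith
  have ha := (hasSum_gw hc).mul_left (Real.log (1 - rr c))
  have hb := (hasSum_coe_mul_geometric_of_norm_lt_one (r := rr c)
    (by rw [Real.norm_eq_abs, abs_of_pos h1]; exact h2)).mul_left ((1 - rr c) * Real.log (rr c))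
  have h := ha.add hb
  have e1 : (fun k => gw c k * Real.log (gw c k)) = fun b : ℕ =>
      Real.log (1 - rr c) * gw c b + (1 - rr c) * Real.log (rr c) * (↑b * rr c ^ b) := by
    funext k
    unfold gw
    rw [Real.log_mul h3 (pow_pos h1 k).ne', Real.log_pow]
    ring
  have e2 : -gH c = Real.log (1 - rr c) * 1 +
      (1 - rr c) * Real.log (rr c) * (rr c / (1 - rr c) ^ 2) := by
    unfold gH
    field_simp
    ring
  rw [e1, e2]
  exact h

lemma Lam_eq {m : ℕ} (c : Fin m → ℝ) (κ : Fin m → ℕ) : Lam c κ = ∏ j, gw (c j) (κ j) := rfl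

theorem entropy : S_entropy := by
  intro m c hc
  refine ⟨fun κ => ⟨?_, ?_⟩, ?_, ?_⟩
  · exact prod_pos fun j _ => gw_pos (hc j) _
  · exact prod_le_one (fun j _ => (gw_pos (hc j) _).le) fun j _ => gw_le_one (hc j) _
  · have h : (fun K => ∑ κ ∈ box m K, Lam c κ) =
        fun K => ∏ j, ∑ k ∈ range K, gw (c j) k := by
      funext K
      rw [Finset.prod_univ_sum]
      rfl
    rw [h]
    have := tendsto_finsetProd (univ : Finset (Fin m))
      (fun j _ => (hasSum_gw (hc j)).tendsto_sum_nat)
    simpa using this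
  · have h : (fun K => ∑ κ ∈ box m K, Lam c κ * Real.log (Lam c κ)) =
        fun K => ∑ j, ∏ l, ∑ k ∈ range K,
          (gw (c l) k * if l = j then Real.log (gw (c l) k) else 1) := by
      funext K
      simp_rw [Finset.prod_univ_sum]
      rw [Finset.sum_comm]
      refine Finset.sum_congr rfl fun κ _ => ?_
      rw [Lam_eq, Real.log_prod (fun j _ => (gw_pos (hc j) _).ne'), Finset.mul_sum]
      refine Finset.sum_congr rfl fun j _ => ?_
      rw [Finset.prod_mul_distrib]
      simp
    rw [h]
    have key : ∀ j l : Fin m, Tendsto (fun K => ∑ k ∈ range K,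
        (gw (c l) k * if l = j then Real.log (gw (c l) k) else 1)) atTop
        (𝓝 (if l = j then -gH (c l) else 1)) := by
      intro j l
      by_cases hlj : l = j
      · simp only [hlj, if_true]
        exact (hasSum_gw_log (hc j)).tendsto_sum_nat
      · simp only [hlj, if_false, mul_one]
        exact (hasSum_gw (hc l)).tendsto_sum_nat
    have := tendsto_finsetSum (univ : Finset (Fin m))
      (fun j _ => tendsto_finsetProd (univ : Finset (Fin m)) (fun l _ => key j l))
    simpa using this

end Pool.Agent.W196.GPEnt
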