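import Mathlib

/-! Trees on `Fin n` given by a parent function, and power sums of the eigenvalues of a real
symmetric matrix. -/

set_option autoImplicit false

namespace Pool.Agent.W196

/-- Boolean adjacency of the tree with parent function `p`. -/
def adjB (p : ℕ → ℕ) (i j : ℕ) : Bool := (j != 0 && p j == i) || (i != 0 && p i == j)

/-- the graph on `Fin n` in which every `j > 0` is joined to `p j`. -/
def parG (n : ℕ) (p : ℕ → ℕ) (h : ∀ j < n, 0 < j → p j < j) : SimpleGraph (Fin n) where
  Adj i j := adjB p i j = true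
  symm := ⟨fun i j hij => by
    simp only [adjB, Bool.or_eq_true, Bool.and_eq_true] at hij ⊢
    tauto⟩
  loopless := ⟨fun i hi => by
    simp only [adjB, Bool.or_eq_true, Bool.and_eq_true, bne_iff_ne, ne_eq, beq_iff_eq] at hi
    have := h i i.2
    rcases hi with hi | hi <;> have := this (Nat.pos_of_ne_zero hi.1) <;> omega⟩

instance (n : ℕ) (p : ℕ → ℕ) (h : ∀ j < n, 0 < j → p j < j) : DecidableRel (parG n p h).Adj :=
  fun i j => inferInstanceAs (Decidable (adjB p i j = true))

lemma parG_adj_iff {n : ℕ} {p : ℕ → ℕ} {h : ∀ j < n, 0 < j → p j < j} {i j : Fin n} :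
    (parG n p h).Adj i j ↔ ((j : ℕ) ≠ 0 ∧ p j = i) ∨ ((i : ℕ) ≠ 0 ∧ p i = j) := by
  change adjB p i j = true ↔ _
  simp [adjB]

lemma parG_isTree (n : ℕ) (hn : 0 < n) (p : ℕ → ℕ) (h : ∀ j < n, 0 < j → p j < j) :
    (parG n p h).IsTree := by
  classical
  set G := parG n p h with hG
  have hconn : G.Connected := by
    have : Nonempty (Fin n) := ⟨⟨0, hn⟩⟩
    have key : ∀ k : ℕ, ∀ hk : k < n, G.Reachable ⟨0, hn⟩ ⟨k, hk⟩ := by
      intro k
      induction k using Nat.strong_induction_on with
      | _ k ih =>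
        intro hk
        rcases Nat.eq_zero_or_pos k with rfl | hpos
        · exact SimpleGraph.Reachable.refl _
        · have h1 := h k hk hpos
          refine (ih (p k) h1 (by omega)).trans (SimpleGraph.Adj.reachable ?_)
          rw [hG, parG_adj_iff]
          left
          exact ⟨by simpa using hpos.ne', rfl⟩
    refine ⟨fun u v => ?_⟩
    exact (key u u.2).symm.trans (key v v.2)
  rw [SimpleGraph.isTree_iff_connected_and_card]
  refine ⟨hconn, le_antisymm ?_ hconn.card_vert_le_card_edgeSet_add_one⟩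
  -- surjection from nonzero vertices
  let f : {j : Fin n // (j : ℕ) ≠ 0} → G.edgeSet := fun j =>
    ⟨s(⟨p j.1, (h j.1 j.1.2 (Nat.pos_of_ne_zero j.2)).trans j.1.2⟩, j.1), by
      rw [SimpleGraph.mem_edgeSet, hG, parG_adj_iff]
      left
      exact ⟨j.2, rfl⟩⟩
  have hf : Function.Surjective f := by
    rintro ⟨e, he⟩
    induction e using Sym2.ind with
    | _ a b =>
      rw [SimpleGraph.mem_edgeSet, hG, parG_adj_iff] at he
      rcases he with he | he
      · refine ⟨⟨b, he.1⟩, ?_⟩
        apply Subtype.ext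
        simp only [f]
        congr 1
        ext
        exact he.2
      · refine ⟨⟨a, he.1⟩, ?_⟩
        apply Subtype.ext
        simp only [f]
        rw [Sym2.eq_swap]
        congr 1
        ext
        exact he.2
  have h1 : Nat.card G.edgeSet ≤ Nat.card {j : Fin n // (j : ℕ) ≠ 0} :=
    Nat.card_le_card_of_surjective f hf
  have h2 : Nat.card {j : Fin n // (j : ℕ) ≠ 0} + 1 ≤ Nat.card (Fin n) := by
    rw [Nat.card_eq_fintype_card, Nat.card_eq_fintype_card, Fintype.card_subtype, Fintype.card_fin]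
    have : (Finset.univ.filter (fun j : Fin n => (j : ℕ) ≠ 0)) ⊆
        Finset.univ.erase ⟨0, hn⟩ := by
      intro x hx
      simp only [Finset.mem_filter, Finset.mem_univ, true_and] at hx
      simp only [Finset.mem_erase, Finset.mem_univ, and_true]
      intro hx0
      apply hx
      rw [hx0]
    have := Finset.card_le_card this
    rw [Finset.card_erase_of_mem (Finset.mem_univ _), Finset.card_univ, Fintype.card_fin] at this
    omega
  omega

open Matrix

/-- Power sums of the eigenvalues. -/
lemma sum_pow_eigenvalues {n : ℕ} {A : Matrix (Fin n) (Fin n) ℝ} (hA : A.IsHermitian) (k : ℕ) :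
    ∑ i, hA.eigenvalues i ^ k = (A ^ k).trace := by
  conv_rhs => rw [hA.spectral_theorem]
  rw [← map_pow, Unitary.conjStarAlgAut_apply, Matrix.trace_mul_comm, ← mul_assoc]
  simp [Matrix.diagonal_pow, Matrix.trace_diagonal]

/-- In an acyclic graph two distinct vertices have at most one common neighbour. -/
lemma common_unique {n : ℕ} {G : SimpleGraph (Fin n)} (hG : G.IsAcyclic) {i j k k' : Fin n}
    (hij : i ≠ j) (h1 : G.Adj i k) (h2 : G.Adj k j) (h1' : G.Adj i k') (h2' : G.Adj k' j) :
    k = k' := by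
  have hp : (SimpleGraph.Walk.cons h1 (SimpleGraph.Walk.cons h2 SimpleGraph.Walk.nil)).IsPath := by
    simp [SimpleGraph.Walk.cons_isPath_iff, h1.ne, h2.ne, hij]
  have hp' : (SimpleGraph.Walk.cons h1' (SimpleGraph.Walk.cons h2' SimpleGraph.Walk.nil)).IsPath := by
    simp [SimpleGraph.Walk.cons_isPath_iff, h1'.ne, h2'.ne, hij]
  have h := (hG.subsingleton_path i j).elim ⟨_, hp⟩ ⟨_, hp'⟩
  have h2 := congrArg (fun q : G.Path i j => (q : G.Walk i j).support) h
  simpa using h2

/-- second power of the adjacency matrix off the diagonal. -/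
lemma sq_entry {n : ℕ} {G : SimpleGraph (Fin n)} [DecidableRel G.Adj] (hG : G.IsAcyclic)
    {i j : Fin n} (hij : i ≠ j) :
    ((G.adjMatrix ℝ) * (G.adjMatrix ℝ)) i j * ((G.adjMatrix ℝ) * (G.adjMatrix ℝ)) i j =
      ((G.adjMatrix ℝ) * (G.adjMatrix ℝ)) i j := by
  have e : ((G.adjMatrix ℝ) * (G.adjMatrix ℝ)) i j =
      (((Finset.univ.filter fun k => G.Adj i k ∧ G.Adj k j)).card : ℝ) := by
    rw [Matrix.mul_apply, Finset.card_filter]
    push_cast
    refine Finset.sum_congr rfl fun k _ => ?_
    rw [SimpleGraph.adjMatrix_apply, SimpleGraph.adjMatrix_apply]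
    by_cases a : G.Adj i k <;> by_cases b : G.Adj k j <;> simp [a, b]
  have hc : ((Finset.univ.filter fun k => G.Adj i k ∧ G.Adj k j)).card ≤ 1 := by
    rw [Finset.card_le_one]
    intro a ha b hb
    simp only [Finset.mem_filter, Finset.mem_univ, true_and] at ha hb
    exact common_unique hG hij ha.1 ha.2 hb.1 hb.2
  rw [e]
  interval_cases ((Finset.univ.filter fun k => G.Adj i k ∧ G.Adj k j)).card <;> norm_num

/-- Trace of the second power. -/
lemma trace_two {n : ℕ} (G : SimpleGraph (Fin n)) [DecidableRel G.Adj] :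
    ((G.adjMatrix ℝ) ^ 2).trace = ((∑ i, G.degree i : ℕ) : ℝ) := by
  rw [pow_two, Matrix.trace]
  push_cast
  refine Finset.sum_congr rfl fun i _ => ?_
  exact G.adjMatrix_mul_self_apply_self i

/-- Trace of the fourth power for an acyclic graph. -/
lemma trace_four {n : ℕ} (G : SimpleGraph (Fin n)) [DecidableRel G.Adj] (hG : G.IsAcyclic) :
    ((G.adjMatrix ℝ) ^ 4).trace =
      2 * ((∑ i, G.degree i ^ 2 : ℕ) : ℝ) - ((∑ i, G.degree i : ℕ) : ℝ) := by
  set A := G.adjMatrix ℝ with hA
  have h4 : A ^ 4 = (A * A) * (A * A) := by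
    rw [← pow_two, ← pow_two, ← pow_mul]
  have hsymm : ∀ i j, (A * A) j i = (A * A) i j := by
    intro i j
    rw [Matrix.mul_apply, Matrix.mul_apply]
    refine Finset.sum_congr rfl fun k _ => ?_
    rw [hA, mul_comm]
    simp only [SimpleGraph.adjMatrix_apply, G.adj_comm]
  have hdiag : ∀ i, (A * A) i i = (G.degree i : ℝ) := by
    intro i
    exact G.adjMatrix_mul_self_apply_self i
  rw [h4, Matrix.trace]
  simp only [Matrix.diag_apply]
  have hrow : ∀ i, ((A * A) * (A * A)) i i =
      (G.degree i : ℝ) ^ 2 - G.degree i + ∑ k ∈ G.neighborFinset i, (G.degree k : ℝ) := by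
    intro i
    rw [Matrix.mul_apply]
    have e1 : ∀ j, (A * A) i j * (A * A) j i =
        (if j = i then (G.degree i : ℝ) ^ 2 - G.degree i else 0) + (A * A) i j := by
      intro j
      rw [hsymm i j]
      split_ifs with h
      · rw [h, hdiag]; ring
      · rw [sq_entry hG (Ne.symm h)]; ring
    simp_rw [e1]
    rw [Finset.sum_add_distrib, Finset.sum_ite_eq' Finset.univ i]
    simp only [Finset.mem_univ, if_true]
    congr 1
    simp only [Matrix.mul_apply]
    rw [Finset.sum_comm]
    have e2 : ∀ k, ∑ j, A i k * A k j = if k ∈ G.neighborFinset i then (G.degree k : ℝ) else 0 := by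
      intro k
      rw [← Finset.mul_sum]
      have e3 : ∑ j, A k j = (G.degree k : ℝ) := by
        simp only [hA, SimpleGraph.adjMatrix_apply, Finset.sum_boole]
        rw [← SimpleGraph.card_neighborFinset_eq_degree, SimpleGraph.neighborFinset_eq_filter]
      rw [e3, hA, SimpleGraph.adjMatrix_apply]
      simp only [SimpleGraph.mem_neighborFinset]
      split_ifs <;> simp
    simp_rw [e2]
    rw [Finset.sum_ite_mem, Finset.univ_inter]
  simp_rw [hrow]
  rw [Finset.sum_add_distrib, Finset.sum_sub_distrib]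
  have hlast : ∑ i, ∑ k ∈ G.neighborFinset i, (G.degree k : ℝ) = ∑ k, (G.degree k : ℝ) ^ 2 := by
    have e4 : ∀ i, ∑ k ∈ G.neighborFinset i, (G.degree k : ℝ) =
        ∑ k, if k ∈ G.neighborFinset i then (G.degree k : ℝ) else 0 := by
      intro i
      rw [Finset.sum_ite_mem, Finset.univ_inter]
    simp_rw [e4]
    rw [Finset.sum_comm]
    refine Finset.sum_congr rfl fun k _ => ?_
    have e5 : ∀ i, (if k ∈ G.neighborFinset i then (G.degree k : ℝ) else 0) =
        (if i ∈ G.neighborFinset k then (G.degree k : ℝ) else 0) := by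
      intro i
      simp only [SimpleGraph.mem_neighborFinset, G.adj_comm]
    simp_rw [e5]
    rw [Finset.sum_ite_mem, Finset.univ_inter, Finset.sum_const, SimpleGraph.card_neighborFinset_eq_degree]
    ring
  rw [hlast]
  push_cast
  ring

end Pool.Agent.W196
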