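import Pool.Agent.W464.WLP.Defs2

/-!
Task WLP-L3: the condition `sq` for the lattice points of a simplex and their translate.
-/

set_option autoImplicit false

open MvPolynomial

namespace Pool.Agent.W196.WLPL3

open Pool.Agent.W464.WLP

variable {K : Type} [Field K] [CharZero K]

omit [CharZero K] in
theorem evF {m k : ℕ} (ρ : Fin m → K) (a : Lat m k) (x : Fin m → K) :
    eval (Fin.cons 1 x : Fin (m + 1) → K) (latF ρ a) =
      (∏ i : Fin m, ∏ j ∈ Finset.range (a.1 i : ℕ), (((j : K) + 1)⁻¹ * (x i - (ρ i + (j : K))))) *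
      ∏ j ∈ Finset.range (k - ∑ i, (a.1 i : ℕ)),
        (((j : K) + 1)⁻¹ * (((k : K) - (j : K) + ∑ i, ρ i) - ∑ i, x i)) := by
  simp [latF, map_prod, map_mul, map_sub, map_sum]

theorem inv_ne (j : ℕ) : (((j : K) + 1)⁻¹) ≠ 0 := by
  have : ((j : K) + 1) ≠ 0 := by exact_mod_cast Nat.succ_ne_zero j
  exact inv_ne_zero this

/-- nonvanishing of the values -/
theorem evF_ne {m k : ℕ} (ρ : Fin m → K) (a : Lat m k) (x : Fin m → K)
    (h1 : ∀ i, ∀ j < (a.1 i : ℕ), x i ≠ ρ i + (j : K))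
    (h2 : ∀ j < k, ∑ i, x i ≠ (k : K) - (j : K) + ∑ i, ρ i) :
    eval (Fin.cons 1 x : Fin (m + 1) → K) (latF ρ a) ≠ 0 := by
  rw [evF]
  refine mul_ne_zero ?_ ?_
  · refine Finset.prod_ne_zero_iff.2 fun i _ => Finset.prod_ne_zero_iff.2 fun j hj => ?_
    exact mul_ne_zero (inv_ne j) (sub_ne_zero.2 (h1 i j (Finset.mem_range.1 hj)))
  · refine Finset.prod_ne_zero_iff.2 fun j hj => ?_
    have hj' := Finset.mem_range.1 hj
    exact mul_ne_zero (inv_ne j) (sub_ne_zero.2 (Ne.symm (h2 j (by omega))))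

omit [CharZero K] in
theorem evF_zero {m k : ℕ} (ρ : Fin m → K) (a : Lat m k) (x : Fin m → K)
    (i : Fin m) (j : ℕ) (hj : j < (a.1 i : ℕ)) (h : x i = ρ i + (j : K)) :
    eval (Fin.cons 1 x : Fin (m + 1) → K) (latF ρ a) = 0 := by
  rw [evF]
  refine mul_eq_zero_of_left ?_ _
  refine Finset.prod_eq_zero (Finset.mem_univ i) (Finset.prod_eq_zero (Finset.mem_range.2 hj) ?_)
  rw [h, sub_self, mul_zero]

/-- the lattice point `c e_0` -/
def pt (m k c : ℕ) (hc : c ≤ k) : Lat (m + 1) k :=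
  ⟨Fin.cons ⟨c, by omega⟩ (fun _ => ⟨0, by omega⟩), by
    rw [Fin.sum_univ_succ]
    simp [hc]⟩

theorem pt_zero (m k c : ℕ) (hc : c ≤ k) : ((pt m k c hc).1 0 : ℕ) = c := rfl

theorem main : L3 := by
  intro K _ _ m k ρ hk hρ0 hρ hρs α β h
  -- nonvanishing of A
  have hA : ∀ i j : Lat (m + 1) k, ((i.1 0 : ℕ) = 0 ∨ (j.1 0 : ℕ) < (i.1 0 : ℕ)) →
      eval (latW ρ i) (latF 0 j) ≠ 0 := by
    intro i j hij
    refine evF_ne (0 : Fin (m + 1) → K) j _ ?_ ?_
    · intro l
      refine Fin.cases ?_ (fun l => ?_) l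
      · intro c hc he
        simp only [hρ0, Pi.zero_apply, zero_add] at he
        have h1 : (((i.1 0 : ℕ) : ℤ) : K) = ((c + 1 : ℤ) : K) := by
          push_cast
          linear_combination he
        have h2 : ((i.1 0 : ℕ) : ℤ) = (c : ℤ) + 1 := by exact_mod_cast h1
        omega
      · intro c hc he
        simp only [Pi.zero_apply, zero_add] at he
        refine hρ l ((c : ℤ) - ((i.1 l.succ : ℕ) : ℤ)) ?_
        push_cast
        linear_combination he
    · intro c hc he
      rw [Finset.sum_add_distrib, Fin.sum_univ_succ ρ, hρ0] at he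
      simp only [Pi.zero_apply, Finset.sum_const_zero] at he
      refine hρs ((k : ℤ) - (c : ℤ) + 1 - ∑ l, ((i.1 l : ℕ) : ℤ)) ?_
      push_cast
      linear_combination he
  have hB : ∀ i j : Lat (m + 1) k, (i.1 0 : ℕ) ≤ (j.1 0 : ℕ) + 1 →
      eval (latW (0 : Fin (m + 1) → K) j) (latF ρ i) ≠ 0 := by
    intro i j hij
    refine evF_ne ρ i _ ?_ ?_
    · intro l
      refine Fin.cases ?_ (fun l => ?_) l
      · intro c hc he
        simp only [hρ0, Pi.zero_apply, add_zero] at he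
        have h1 : ((((j.1 0 : ℕ) : ℤ) + 1 : ℤ) : K) = ((c : ℤ) : K) := by
          push_cast
          linear_combination he
        have h2 : ((j.1 0 : ℕ) : ℤ) + 1 = (c : ℤ) := by exact_mod_cast h1
        omega
      · intro c hc he
        simp only [Pi.zero_apply, add_zero] at he
        refine hρ l (((j.1 l.succ : ℕ) : ℤ) - (c : ℤ)) ?_
        push_cast
        linear_combination -he
    · intro c hc he
      rw [Fin.sum_univ_succ ρ, hρ0] at he
      simp only [Pi.zero_apply, add_zero] at he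
      refine hρs ((∑ l, ((j.1 l : ℕ) : ℤ)) - (k : ℤ) + (c : ℤ) + 1) ?_
      push_cast
      linear_combination -he
  -- the vanishing value
  have hE : β (pt m k k le_rfl) = 0 := by
    have h1 := h (pt m k k le_rfl) (pt m k k le_rfl)
    have h2 : eval (latW ρ (pt m k k le_rfl)) (latF 0 (pt m k k le_rfl)) = 0 := by
      refine evF_zero (0 : Fin (m + 1) → K) _ _ 0 (k - 1) ?_ ?_
      · rw [pt_zero]; omega
      · simp only [hρ0, Pi.zero_apply, zero_add, pt_zero]
        have : ((k - 1 : ℕ) : K) = (k : K) - 1 := by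
          rw [Nat.cast_sub hk, Nat.cast_one]
        rw [this]; ring
    rw [h2, mul_zero] at h1
    exact (mul_eq_zero.1 h1.symm).resolve_right (hB _ _ (by omega))
  have hj : α (pt m k (k - 1) (by omega)) = 0 := by
    have h1 := h (pt m k k le_rfl) (pt m k (k - 1) (by omega))
    rw [hE, zero_mul] at h1
    refine (mul_eq_zero.1 h1).resolve_right (hA _ _ (Or.inr ?_))
    rw [pt_zero, pt_zero]; omega
  have hβ : ∀ i, β i = 0 := by
    intro i
    have h1 := h i (pt m k (k - 1) (by omega))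
    rw [hj, zero_mul] at h1
    refine (mul_eq_zero.1 h1.symm).resolve_right (hB _ _ ?_)
    rw [pt_zero]
    have := (i.1 0).isLt
    omega
  refine ⟨fun j => ?_, hβ⟩
  have h1 := h (pt m k 0 (by omega)) j
  rw [hβ, zero_mul] at h1
  exact (mul_eq_zero.1 h1).resolve_right (hA _ _ (Or.inl (pt_zero _ _ _ _)))

end Pool.Agent.W196.WLPL3
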